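import Mathlib
import Pool.Agent.Helper3.Kern4
import Pool.Agent.Helper3.Gen

set_option autoImplicit false

open Finset

namespace Pool.Agent.Results.MP_b2a904_nt.ParityBias

/-- An overpartition of `n`: a partition of `n` together with the set of those part sizes whose
first occurrence carries an overline. -/
structure Overpartition (n : ℕ) where
  /-- the underlying partition of `n` -/
  partition : Nat.Partition n
  /-- the part sizes whose first occurrence is overlined -/
  overlined : Finset ℕ
  /-- only part sizes that occur can be overlined -/
  overlined_subset : overlined ⊆ partition.parts.toFinset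

/-- The largest part (`0` for the empty overpartition). -/
def largestPart {n : ℕ} (π : Overpartition n) : ℕ := π.partition.parts.sup

/-- The missing integers: the positive integers below the largest part which are not parts. -/
def missing {n : ℕ} (π : Overpartition n) : Finset ℕ :=
  (Finset.Ico 1 (largestPart π)).filter fun m => m ∉ π.partition.parts

/-- The number of overpartitions of `n` with an even number of missing integers. -/
noncomputable def Me (n : ℕ) : ℕ := Nat.card {π : Overpartition n // Even (missing π).card}

/-- The number of overpartitions of `n` with an odd number of missing integers. -/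
noncomputable def Mo (n : ℕ) : ℕ := Nat.card {π : Overpartition n // Odd (missing π).card}

/-- Overpartitions as pairs. -/
def equivSigma (n : ℕ) :
    Overpartition n ≃ (Σ p : Nat.Partition n, {s // s ∈ p.parts.toFinset.powerset}) where
  toFun π := ⟨π.partition, ⟨π.overlined, Finset.mem_powerset.mpr π.overlined_subset⟩⟩
  invFun a := ⟨a.1, a.2.1, Finset.mem_powerset.mp a.2.2⟩
  left_inv _ := rfl
  right_inv _ := rfl

noncomputable instance (n : ℕ) : Fintype (Overpartition n) :=
  Fintype.ofEquiv _ (equivSigma n).symm

lemma card_missing {n : ℕ} (p : Nat.Partition n) :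
    ((Finset.Ico 1 p.parts.sup).filter fun m => m ∉ p.parts).card + p.parts.toFinset.card
      = p.parts.sup := by
  rcases Nat.eq_zero_or_pos p.parts.sup with h | h
  · have h1 : p.parts = 0 := by
      rw [Multiset.eq_zero_iff_forall_notMem]
      intro i hi
      have h2 := Multiset.le_sup hi
      have h3 := p.parts_pos hi
      omega
    rw [h]
    simp [h1]
  · have hmem : p.parts.sup ∈ p.parts := by
      obtain ⟨i, hi, hlt⟩ := Pool.Agent.Helper3.OP.exists_of_lt_sup
        (s := p.parts) (j := p.parts.sup - 1) (by omega)
      have h2 := Multiset.le_sup hi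
      have h3 : p.parts.sup = i := by omega
      rw [h3]; exact hi
    have hsplit : (Finset.Icc 1 p.parts.sup) =
        ((Finset.Ico 1 p.parts.sup).filter fun m => m ∉ p.parts) ∪ p.parts.toFinset := by
      ext m
      simp only [mem_Icc, mem_union, mem_filter, mem_Ico, Multiset.mem_toFinset]
      constructor
      · intro hm
        by_cases hmp : m ∈ p.parts
        · exact Or.inr hmp
        · left
          refine ⟨⟨hm.1, lt_of_le_of_ne hm.2 ?_⟩, hmp⟩
          intro heq
          exact hmp (heq ▸ hmem)
      · rintro (hm | hm)
        · exact ⟨hm.1.1, hm.1.2.le⟩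
        · exact ⟨p.parts_pos hm, Multiset.le_sup hm⟩
    have hdisj : Disjoint ((Finset.Ico 1 p.parts.sup).filter fun m => m ∉ p.parts)
        p.parts.toFinset := by
      rw [Finset.disjoint_left]
      intro m hm hm2
      exact (mem_filter.mp hm).2 (Multiset.mem_toFinset.mp hm2)
    rw [← card_union_of_disjoint hdisj, ← hsplit]
    simp

lemma sub_eq_sum (n : ℕ) :
    (Me n : ℤ) - Mo n = ∑ π : Overpartition n, (-1 : ℤ) ^ (missing π).card := by
  classical
  have h1 : Me n = ((univ : Finset (Overpartition n)).filter fun π => Even (missing π).card).card := by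
    rw [Me, Nat.card_eq_fintype_card, Fintype.card_subtype]
  have h2 : Mo n = ((univ : Finset (Overpartition n)).filter
      fun π => ¬ Even (missing π).card).card := by
    rw [Mo, Nat.card_eq_fintype_card, Fintype.card_subtype]
    congr 1
    ext π
    simp
  rw [h1, h2, ← sum_filter_add_sum_filter_not univ (fun π : Overpartition n =>
    Even (missing π).card)]
  have h3 : ∑ π ∈ (univ : Finset (Overpartition n)).filter (fun π => Even (missing π).card),
      (-1 : ℤ) ^ (missing π).card
      = ((univ : Finset (Overpartition n)).filter fun π => Even (missing π).card).card := by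
    rw [card_eq_sum_ones]
    push_cast
    refine sum_congr rfl fun π hπ => ?_
    exact Even.neg_one_pow (mem_filter.mp hπ).2
  have h4 : ∑ π ∈ (univ : Finset (Overpartition n)).filter (fun π => ¬ Even (missing π).card),
      (-1 : ℤ) ^ (missing π).card
      = -((univ : Finset (Overpartition n)).filter fun π => ¬ Even (missing π).card).card := by
    rw [card_eq_sum_ones]
    push_cast
    rw [← sum_neg_distrib]
    refine sum_congr rfl fun π hπ => ?_
    exact Odd.neg_one_pow (Nat.not_even_iff_odd.mp (mem_filter.mp hπ).2)
  rw [h3, h4]
  ring

lemma sub_eq_cc (n : ℕ) : (Me n : ℤ) - Mo n = Pool.Agent.Helper3.OP.cc n := by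
  rw [sub_eq_sum, ← Pool.Agent.Helper3.OP.sum_weight_sup,
    ← (equivSigma n).symm.sum_comp (fun π : Overpartition n => (-1 : ℤ) ^ (missing π).card),
    Fintype.sum_sigma]
  refine sum_congr rfl fun p _ => ?_
  have h1 : ∀ s : {s // s ∈ p.parts.toFinset.powerset},
      (-1 : ℤ) ^ (missing ((equivSigma n).symm ⟨p, s⟩)).card
        = (-1) ^ ((Finset.Ico 1 p.parts.sup).filter fun m => m ∉ p.parts).card := fun s => rfl
  simp_rw [h1]
  rw [sum_const, card_univ, Fintype.card_coe, card_powerset, nsmul_eq_mul]
  have h2 := card_missing p
  set a := ((Finset.Ico 1 p.parts.sup).filter fun m => m ∉ p.parts).card with ha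
  set d := p.parts.toFinset.card with hd
  rw [← h2, pow_add, mul_assoc, ← mul_pow]
  norm_num
  ring

/-- For every `n > 27` there are more overpartitions of `n` with an even number of missing
integers than with an odd number of missing integers. -/
theorem result : ∀ n : ℕ, 27 < n → Mo n < Me n := by
  intro n hn
  have h1 := Pool.Agent.Helper3.OP.cc_pos hn
  rw [← sub_eq_cc] at h1
  have h2 : (Mo n : ℤ) < Me n := by linarith
  exact_mod_cast h2

end Pool.Agent.Results.MP_b2a904_nt.ParityBias
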